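import Pool.Agent.H139.ZO.Com

set_option autoImplicit false
set_option linter.unusedSectionVars false

/-!
# Project ZO (helper500), PART 5: semisimple `ℓ`-adic representations are abelian on `U`
-/

namespace Pool.Agent.H139.ZO.ABL

open NumberField IsDedekindDomain Filter Topology Polynomial
open Pool.Agent.W401.Cheb (GK IsFrob IsInert dens)
open Pool.Agent.H500.HC (InRay QBar ZBar jz jz_inj)
open Pool.Agent.H500.R2 (UnrOut)
open Pool.Agent.H500.SV (Above Fld)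
open Pool.Agent.H500.TH (typB)
open Pool.Agent.H500.ZO (PotHecke S_ART S_RAD S_ABL)
open Pool.Agent.H894.TH.TFin (exists_below above_unique above_nat)

/-- integral elements of an ultrametric field have norm at most one -/
theorem norm_le_one_of_int {C : Type} [NormedField C] [IsUltrametricDist C] {u : C}
    (hu : IsIntegral ℤ u) : ‖u‖ ≤ 1 := by
  obtain ⟨p, hp, hpu⟩ := hu
  by_contra hlt
  push Not at hlt
  have h0 : (0 : ℝ) < ‖u‖ := by linarith
  rw [hp.as_sum, eval₂_add, eval₂_pow, eval₂_X, eval₂_finsetSum] at hpu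
  rcases Nat.eq_zero_or_pos p.natDegree with hd | hd
  · rw [hd] at hpu
    simp at hpu
  have h1 : u ^ p.natDegree = - ∑ i ∈ Finset.range p.natDegree,
      eval₂ (algebraMap ℤ C) u (Polynomial.C (p.coeff i) * X ^ i) := eq_neg_of_add_eq_zero_left hpu
  have h2 : ‖∑ i ∈ Finset.range p.natDegree,
      eval₂ (algebraMap ℤ C) u (Polynomial.C (p.coeff i) * X ^ i)‖ ≤ ‖u‖ ^ (p.natDegree - 1) := by
    refine IsUltrametricDist.norm_sum_le_of_forall_le_of_nonneg (pow_nonneg h0.le _) ?_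
    intro i hi
    rw [Finset.mem_range] at hi
    rw [eval₂_mul, eval₂_C, eval₂_pow, eval₂_X, norm_mul, norm_pow]
    have h3 : ‖algebraMap ℤ C (p.coeff i)‖ ≤ 1 := by
      rw [eq_intCast]
      exact IsUltrametricDist.norm_intCast_le_one C _
    have h4 : ‖u‖ ^ i ≤ ‖u‖ ^ (p.natDegree - 1) := pow_le_pow_right₀ hlt.le (by omega)
    calc ‖algebraMap ℤ C (p.coeff i)‖ * ‖u‖ ^ i ≤ 1 * ‖u‖ ^ i :=
          mul_le_mul_of_nonneg_right h3 (pow_nonneg h0.le _)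
      _ = ‖u‖ ^ i := one_mul _
      _ ≤ _ := h4
  have h5 : ‖u‖ ^ p.natDegree ≤ ‖u‖ ^ (p.natDegree - 1) := by
    rw [← norm_pow, h1, norm_neg]
    exact h2
  have h6 : ‖u‖ ^ (p.natDegree - 1) < ‖u‖ ^ p.natDegree := pow_lt_pow_right₀ hlt (by omega)
  exact absurd h5 (not_le.2 h6)

/-- the trace is the sum of the roots -/
theorem trace_of_cp {F : Type} [Field F] {n : ℕ} (A : Matrix (Fin n) (Fin n) F) (a : Fin n → F)
    (hA : A.charpoly = ∏ i, (X - Polynomial.C (a i))) : A.trace = ∑ i, a i := by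
  rw [Matrix.trace_eq_neg_charpoly_nextCoeff, hA, prod_X_sub_C_nextCoeff, neg_neg]

/-- continuity and open normal subgroups -/
theorem nhd {K : Type} [Field K] [NumberField K] {C : Type} [NormedField C] (f : GK K → C)
    (hf : Continuous f) (x : GK K) {δ : ℝ} (hδ : 0 < δ) :
    ∃ V : Subgroup (GK K), V.Normal ∧ IsOpen (V : Set (GK K)) ∧ ∀ u ∈ V, ‖f (x * u) - f x‖ < δ := by
  have h1 : Continuous fun u : GK K => ‖f (x * u) - f x‖ := by fun_prop
  have h2 : IsOpen {u : GK K | ‖f (x * u) - f x‖ < δ} := isOpen_lt h1 continuous_const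
  obtain ⟨V, hV⟩ := ProfiniteGrp.exist_openNormalSubgroup_sub_open_nhds_of_one h2
    (show ‖f (x * 1) - f x‖ < δ by rw [mul_one, sub_self, norm_zero]; exact hδ)
  exact ⟨V.toSubgroup, V.isNormal', V.isOpen', fun u hu => hV hu⟩

section
variable {K E : Type} [Field K] [NumberField K] [Field E] [NumberField E]

/-- the traces are equal up to `ℓ^(-m)` -/
theorem step (hART : S_ART) {j : E →+* QBar} {N n : ℕ} {P : HeightOneSpectrum (𝓞 K) → (𝓞 E)[X]}
    {U : Subgroup (GK K)} {L : Type} [Field L] [NumberField L] [Algebra K L] {ι : GK L →* GK K}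
    {e : ℕ} {t : Fin n → (L →+* QBar) → ℕ} {ψ : Fin n → (Ideal (𝓞 L) →*₀ ZBar)} (hN : 2 ≤ N)
    (H : PotHecke j N n P U L ι e t ψ) (ℓ : ℕ) [hℓ : Fact ℓ.Prime] (C : Type) [NormedField C]
    [NormedAlgebra ℚ_[ℓ] C] [IsUltrametricDist C] [CharZero C] (κ : E →+* C)
    (ρ : GK K →* GL (Fin n) C)
    (hcont : Continuous (fun g => (ρ g : Matrix (Fin n) (Fin n) C)))
    (hP : ∀ v : HeightOneSpectrum (𝓞 K), (N : 𝓞 K) ∉ v.asIdeal → (ℓ : 𝓞 K) ∉ v.asIdeal →
      (∀ τ, IsInert v τ → ρ τ = 1) ∧ ∀ σ, IsFrob v σ →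
      (ρ σ : Matrix (Fin n) (Fin n) C).charpoly = (P v).map (κ.comp (algebraMap (𝓞 E) E)))
    (g c : GK L) (hc : c ∈ commutator (GK L)) (m : ℕ) :
    ‖(ρ (ι (g * c)) : Matrix (Fin n) (Fin n) C).trace -
      (ρ (ι g) : Matrix (Fin n) (Fin n) C).trace‖ ≤ 3 * ((ℓ : ℝ)⁻¹) ^ m := by
  classical
  have hN0 : 0 < N := by omega
  have hℓ0 : 0 < ℓ := hℓ.out.pos
  have hℓr : (0 : ℝ) < (ℓ : ℝ)⁻¹ := inv_pos.2 (by exact_mod_cast hℓ0)
  set δ : ℝ := ((ℓ : ℝ)⁻¹) ^ m with hδdef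
  have hδ : 0 < δ := pow_pos hℓr m
  obtain ⟨V, B, hVo, hVc, hB, hart⟩ := hART L (N ^ e * ℓ ^ m) (by positivity)
  set F : GK K → C := fun x => (ρ x : Matrix (Fin n) (Fin n) C).trace with hF
  have hFc : Continuous F := hcont.matrix_trace
  obtain ⟨V1, hV1n, hV1o, hV1⟩ := nhd F hFc (ι g) hδ
  obtain ⟨V2, hV2n, hV2o, hV2⟩ := nhd F hFc (ι (g * c)) hδ
  set Cb := AlgebraicClosure C with hCb
  set a : C →+* Cb := algebraMap C Cb with ha
  have hainj : Function.Injective a := a.injective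
  obtain ⟨r, hr⟩ := Pool.Agent.Y800.extend j (a.comp (κ.comp (algebraMap (𝓞 E) E)))
  have hr' : r.comp (jz j) = a.comp (κ.comp (algebraMap (𝓞 E) E)) := RingHom.ext hr
  set ρb : GK K →* GL (Fin n) Cb := (Matrix.GeneralLinearGroup.map a).comp ρ with hρb
  have hcoe : ∀ g, (ρb g : Matrix (Fin n) (Fin n) Cb) = (ρ g : Matrix (Fin n) (Fin n) C).map a :=
    fun g => rfl
  have hV1n' : (V1.comap ι).Normal := hV1n.comap ι
  have hV2n' : (V2.comap ι).Normal := hV2n.comap ι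
  have hVn : V.Normal := normal_of_comm V hVc
  set W : Subgroup (GK L) := V1.comap ι ⊓ V2.comap ι ⊓ V with hW
  have hWn : W.Normal := inferInstance
  have hWo : IsOpen (W : Set (GK L)) :=
    ((H.fld.comap_open _ hV1o).inter (H.fld.comap_open _ hV2o)).inter hVo
  have hNq : 0 < N * ℓ := Nat.mul_pos hN0 hℓ0
  obtain ⟨w, s, hwB, hwN, hs, hsc⟩ := frob_ex W hWn hWo g hB hNq
  obtain ⟨w', s', hwB', hwN', hs', hsc'⟩ := frob_ex W hWn hWo (g * c) hB hNq
  have hss : s⁻¹ * s' ∈ V := by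
    have h1 : s⁻¹ * s' = (g⁻¹ * s)⁻¹ * (c * ((g * c)⁻¹ * s')) := by group
    rw [h1]
    exact V.mul_mem (V.inv_mem hsc.2) (V.mul_mem (hVc hc) hsc'.2)
  obtain ⟨x, y, hx, hy, hxy⟩ := hart w w' hwB hwB' s s' hs hs' hss
  have hcong : ∀ i, ∃ z : ZBar, ψ i w.asIdeal - ψ i w'.asIdeal = ((N ^ e * ℓ ^ m : ℕ) : ZBar) * z :=
    fun i => hecke_cong (ψ i) (t i) (H.typ i) (Dvd.intro _ rfl) hx hy hxy
  choose z hz using hcong
  -- the characteristic polynomials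
  have key : ∀ (w : HeightOneSpectrum (𝓞 L)) (s : GK L), ((N * ℓ : ℕ) : 𝓞 L) ∉ w.asIdeal →
      IsFrob w s → a (F (ι s)) = ∑ i, r (ψ i w.asIdeal) := by
    intro w s hw hs
    obtain ⟨v, hv⟩ := exists_below (K := K) w
    have h1 : ((N * ℓ : ℕ) : 𝓞 K) ∉ v.asIdeal := fun h => hw ((above_nat hv _).1 h)
    have h2 : (N : 𝓞 K) ∉ v.asIdeal := fun h => h1 (by
      rw [Nat.cast_mul]; exact v.asIdeal.mul_mem_right _ h)
    have h3 : ((ℓ : ℕ) : 𝓞 K) ∉ v.asIdeal := fun h => h1 (by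
      rw [Nat.cast_mul]; exact v.asIdeal.mul_mem_left _ h)
    have h4 : (ρb (ι s) : Matrix (Fin n) (Fin n) Cb).charpoly =
        ∏ i, (X - Polynomial.C (r (ψ i w.asIdeal))) := by
      refine frob_cp H r ρb h2 ?_ ?_ hv hs
      · intro τ hτ
        rw [hρb, MonoidHom.comp_apply, (hP v h2 h3).1 τ hτ, map_one]
      · intro σ hσ
        rw [hcoe, Matrix.charpoly_map, (hP v h2 h3).2 σ hσ, Polynomial.map_map, hr']
    rw [← trace_of_cp _ _ h4, hcoe, hF]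
    exact (AddMonoidHom.map_trace a.toAddMonoidHom _)
  have h1 := key w s hwN hs
  have h2 := key w' s' hwN' hs'
  -- the difference of the two traces
  set M : ℕ := N ^ e * ℓ ^ m with hM
  have hM0 : (M : C) ≠ 0 := by
    have : M ≠ 0 := by positivity
    exact_mod_cast this
  set D : C := F (ι s) - F (ι s') with hD
  have h3 : a D = (M : Cb) * r (∑ i, z i) := by
    rw [hD, map_sub, h1, h2, ← Finset.sum_sub_distrib, map_sum, Finset.mul_sum]
    refine Finset.sum_congr rfl fun i _ => ?_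
    rw [← map_sub, hz i, map_mul, map_natCast]
  have h4 : a (D / M) = r (∑ i, z i) := by
    rw [map_div₀, h3, map_natCast]
    have h5 : (M : Cb) ≠ 0 := by
      rw [← map_natCast a]
      exact fun h => hM0 ((map_eq_zero_iff a hainj).1 h)
    rw [mul_div_cancel_left₀ _ h5]
  have h5 : IsIntegral ℤ (D / M) := by
    have h6 : IsIntegral ℤ (algebraMap C Cb (D / M)) := by
      have h7 : IsIntegral ℤ (r (∑ i, z i)) :=
        (RingOfIntegers.isIntegral (∑ i, z i)).map r.toIntAlgHom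
      rw [← h4] at h7
      exact h7
    exact (isIntegral_algebraMap_iff hainj).1 h6
  have h6 : ‖D‖ ≤ δ := by
    have h7 := norm_le_one_of_int h5
    have h8 : D = (M : C) * (D / M) := by
      rw [mul_div_cancel₀ _ hM0]
    have h9 : ‖(M : C)‖ ≤ δ := by
      rw [hM, Nat.cast_mul, Nat.cast_pow ℓ, norm_mul, norm_pow]
      have h10 : ‖((N ^ e : ℕ) : C)‖ ≤ 1 := IsUltrametricDist.norm_natCast_le_one C _
      have h11 : ‖(ℓ : C)‖ = (ℓ : ℝ)⁻¹ := by
        rw [← map_natCast (algebraMap ℚ_[ℓ] C), norm_algebraMap', Padic.norm_p]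
      rw [h11]
      calc ‖((N ^ e : ℕ) : C)‖ * ((ℓ : ℝ)⁻¹) ^ m ≤ 1 * ((ℓ : ℝ)⁻¹) ^ m :=
            mul_le_mul_of_nonneg_right h10 hδ.le
        _ = δ := one_mul _
    rw [h8, norm_mul]
    calc ‖(M : C)‖ * ‖D / M‖ ≤ δ * 1 := mul_le_mul h9 h7 (norm_nonneg _) hδ.le
      _ = δ := mul_one _
  have h7 : ‖F (ι s) - F (ι g)‖ < δ := by
    have h8 := hV1 (ι (g⁻¹ * s)) hsc.1.1
    rwa [← map_mul, mul_inv_cancel_left] at h8
  have h8 : ‖F (ι s') - F (ι (g * c))‖ < δ := by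
    have h9 := hV2 (ι ((g * c)⁻¹ * s')) hsc'.1.2
    rwa [← map_mul, mul_inv_cancel_left] at h9
  have h9 : F (ι (g * c)) - F (ι g) = (F (ι s) - F (ι g)) - (F (ι s') - F (ι (g * c))) - D := by
    rw [hD]
    ring
  show ‖F (ι (g * c)) - F (ι g)‖ ≤ 3 * δ
  rw [h9]
  calc ‖(F (ι s) - F (ι g)) - (F (ι s') - F (ι (g * c))) - D‖
      ≤ ‖(F (ι s) - F (ι g)) - (F (ι s') - F (ι (g * c)))‖ + ‖D‖ := norm_sub_le _ _
    _ ≤ ‖F (ι s) - F (ι g)‖ + ‖F (ι s') - F (ι (g * c))‖ + ‖D‖ := by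
        gcongr
        exact norm_sub_le _ _
    _ ≤ 3 * δ := by linarith

end

theorem main : S_ART → S_RAD → S_ABL := by
  intro hART hRAD K E _ _ _ _ j N n P U L _ _ _ ι e t ψ hN H ℓ hℓ C _ _ _ κ ρ hcont hss hP g hg h hh
  classical
  have hCZ : CharZero C := charZero_of_injective_algebraMap (algebraMap ℚ_[ℓ] C).injective
  have hℓr : (0 : ℝ) < (ℓ : ℝ)⁻¹ := inv_pos.2 (by exact_mod_cast hℓ.out.pos)
  have hℓ1 : (ℓ : ℝ)⁻¹ < 1 := inv_lt_one_of_one_lt₀ (by exact_mod_cast hℓ.out.one_lt)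
  have key : ∀ (g c : GK L), c ∈ commutator (GK L) →
      (ρ (ι (g * c)) : Matrix (Fin n) (Fin n) C).trace =
      (ρ (ι g) : Matrix (Fin n) (Fin n) C).trace := by
    intro g c hc
    rw [← sub_eq_zero, ← norm_le_zero_iff]
    have h1 : Tendsto (fun m : ℕ => 3 * ((ℓ : ℝ)⁻¹) ^ m) atTop (𝓝 (3 * 0)) :=
      (tendsto_pow_atTop_nhds_zero_of_lt_one hℓr.le hℓ1).const_mul 3
    rw [mul_zero] at h1
    exact ge_of_tendsto' h1 fun m => step hART hN H ℓ C κ ρ hcont hP g c hc m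
  have hr := H.fld.range
  obtain ⟨g', rfl⟩ : g ∈ ι.range := hr ▸ hg
  obtain ⟨h', rfl⟩ : h ∈ ι.range := hr ▸ hh
  have hc : g' * h' * g'⁻¹ * h'⁻¹ ∈ commutator (GK L) :=
    Subgroup.commutator_mem_commutator (Subgroup.mem_top g') (Subgroup.mem_top h')
  have h1 : ρ (ι (g' * h' * g'⁻¹ * h'⁻¹)) = 1 := by
    refine hRAD (GK K) C n ρ U H.normal hss _ (hr ▸ ⟨_, rfl⟩) ?_
    intro x hx
    obtain ⟨x', rfl⟩ : x ∈ ι.range := hr ▸ hx
    rw [← map_mul ι]
    exact key x' _ hc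
  simp only [map_mul, map_inv] at h1
  rw [mul_inv_eq_one, mul_inv_eq_iff_eq_mul] at h1
  exact h1

end Pool.Agent.H139.ZO.ABL
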