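import Pool.Agent.H500.ZO.Stm
import Pool.Agent.H894.TH.TFin

set_option autoImplicit false
set_option linter.unusedSectionVars false

/-!
# Project ZO (helper500): common lemmas for the parts `S_UNI` and `S_ABL`
-/

namespace Pool.Agent.H139.ZO

open NumberField IsDedekindDomain Filter Topology Polynomial
open Pool.Agent.W401.Cheb (GK IsFrob IsInert dens)
open Pool.Agent.H500.HC (InRay QBar ZBar jz jz_inj exists_alpha)
open Pool.Agent.H500.R2 (UnrOut)
open Pool.Agent.H500.MW (PosUD)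
open Pool.Agent.H500.SV (Above Fld)
open Pool.Agent.H500.TH (typB)
open Pool.Agent.H500.ZO (PotHecke)
open Pool.Agent.H894.TH.TFin (exists_below above_unique above_nat)
open Pool.Agent.H37.SV (charpoly_pow)
open scoped commutatorElement

section
variable {K : Type} [Field K] [NumberField K]

/-- Chebotarev (after `Pool.Agent.H500.R2.frob_inf`) -/
theorem frob_inf (U : Subgroup (GK K)) (hn : U.Normal) (hU : IsOpen (U : Set (GK K))) (g : GK K) :
    PosUD (fun v : HeightOneSpectrum (𝓞 K) => ∃ σ, IsFrob v σ ∧ g⁻¹ * σ ∈ U) := by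
  classical
  set C : Set (GK K) := {σ | ∃ τ : GK K, (τ * g * τ⁻¹)⁻¹ * σ ∈ U} with hC
  have h1 := Pool.Agent.W528.Ord.chebK K U hU C
    (by
      rintro σ ⟨τ, hτ⟩ ρ
      refine ⟨ρ * τ, ?_⟩
      have h2 : (ρ * τ * g * (ρ * τ)⁻¹)⁻¹ * (ρ * σ * ρ⁻¹) = ρ * ((τ * g * τ⁻¹)⁻¹ * σ) * ρ⁻¹ := by group
      rw [h2]
      exact hn.conj_mem _ hτ ρ)
    (by
      rintro σ ⟨τ, hτ⟩ u hu
      refine ⟨τ, ?_⟩
      rw [← mul_assoc]
      exact U.mul_mem hτ hu)
  have hfin : Finite (GK K ⧸ U) := Subgroup.quotient_finite_of_isOpen _ hU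
  have hcard : 0 < Nat.card (GK K ⧸ U) := Nat.card_pos
  have himg : 0 < ((QuotientGroup.mk : GK K → GK K ⧸ U) '' C).ncard := by
    rw [Set.ncard_pos (Set.toFinite _)]
    exact ⟨_, g, ⟨1, by simp⟩, rfl⟩
  have hpos : (0 : ℝ) < (((QuotientGroup.mk : GK K → GK K ⧸ U) '' C).ncard : ℝ) /
      (Nat.card (GK K ⧸ U) : ℝ) := div_pos (by exact_mod_cast himg) (by exact_mod_cast hcard)
  have h2 : PosUD (fun v : HeightOneSpectrum (𝓞 K) => ∃ σ ∈ C, IsFrob v σ) := by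
    refine ⟨_, half_pos hpos, Eventually.frequently ?_⟩
    exact (h1.eventually (lt_mem_nhds (half_lt_self hpos))).mono fun N hN => hN.le
  refine h2.mono ?_
  rintro v ⟨σ, ⟨τ, hτ⟩, hσ⟩
  refine ⟨τ⁻¹ * σ * τ⁻¹⁻¹, (Pool.Agent.W401.Frob.main K).2.2 v σ τ⁻¹ hσ, ?_⟩
  have h3 : g⁻¹ * (τ⁻¹ * σ * τ⁻¹⁻¹) = τ⁻¹ * ((τ * g * τ⁻¹)⁻¹ * σ) * τ⁻¹⁻¹ := by group
  rw [h3]
  exact hn.conj_mem _ hτ τ⁻¹

/-- the same, for places outside a finite set which do not contain `M` -/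
theorem frob_ex (U : Subgroup (GK K)) (hn : U.Normal) (hU : IsOpen (U : Set (GK K))) (g : GK K)
    {B : Set (HeightOneSpectrum (𝓞 K))} (hB : B.Finite) {M : ℕ} (hM : 0 < M) :
    ∃ (v : HeightOneSpectrum (𝓞 K)) (σ : GK K), v ∉ B ∧ (M : 𝓞 K) ∉ v.asIdeal ∧
      IsFrob v σ ∧ g⁻¹ * σ ∈ U := by
  have h1 := (frob_inf U hn hU g).infinite
  have h2 : {v : HeightOneSpectrum (𝓞 K) | (M : 𝓞 K) ∈ v.asIdeal}.Finite :=
    Pool.Agent.H500.Kum.fin_mem (E := K) (x := (M : 𝓞 K)) (by exact_mod_cast hM.ne')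
  obtain ⟨v, ⟨σ, hσ, hU⟩, hv⟩ := (h1.sdiff (h2.union hB)).nonempty
  exact ⟨v, σ, fun h => hv (Or.inr h), fun h => hv (Or.inl h), hσ, hU⟩

/-- a subgroup containing the commutator subgroup is normal -/
theorem normal_of_comm {G : Type} [Group G] (V : Subgroup G) (h : commutator G ≤ V) : V.Normal :=
  ⟨fun v hv g => by
    have h1 : ⁅g, v⁆ ∈ V := h (Subgroup.commutator_mem_commutator (Subgroup.mem_top g)
      (Subgroup.mem_top v))
    have h2 : g * v * g⁻¹ = ⁅g, v⁆ * v := by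
      rw [commutatorElement_def]
      group
    rw [h2]
    exact V.mul_mem h1 hv⟩

theorem inRay_dvd {M M' : ℕ} (h : M' ∣ M) {x : 𝓞 K} (hx : InRay M x) : InRay M' x := by
  obtain ⟨h1, h2, h3⟩ := hx
  exact ⟨h1, (by exact_mod_cast (map_dvd (Nat.castRingHom (𝓞 K)) h) :
    (M' : 𝓞 K) ∣ (M : 𝓞 K)).trans h2, h3⟩

theorem typB_cong (t : (K →+* QBar) → ℕ) {M : ℕ} {x : 𝓞 K} (hx : (M : 𝓞 K) ∣ x - 1) :
    (M : ZBar) ∣ typB t x - 1 := by
  classical
  set I : Ideal ZBar := Ideal.span {(M : ZBar)} with hI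
  have h1 : ∀ σ : K →+* QBar, Ideal.Quotient.mk I (RingOfIntegers.mapRingHom σ x) = 1 := by
    intro σ
    rw [← map_one (Ideal.Quotient.mk I), Ideal.Quotient.eq, hI, Ideal.mem_span_singleton]
    have h2 := map_dvd (RingOfIntegers.mapRingHom σ) hx
    rwa [map_natCast, map_sub, map_one] at h2
  rw [← Ideal.mem_span_singleton, ← hI, ← Ideal.Quotient.eq, map_one]
  unfold typB
  rw [map_prod]
  refine Finset.prod_eq_one fun σ _ => ?_
  rw [map_pow, h1, one_pow]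

/-- congruence of the values of a Hecke character -/
theorem hecke_cong {e N M : ℕ} (ψ : Ideal (𝓞 K) →*₀ ZBar) (t : (K →+* QBar) → ℕ)
    (typ : ∀ x : 𝓞 K, InRay (N ^ e) x → ψ (Ideal.span {x}) = typB t x) (hM : N ^ e ∣ M)
    {I J : Ideal (𝓞 K)} {x y : 𝓞 K} (hx : InRay M x) (hy : InRay M y)
    (h : I * Ideal.span {x} = J * Ideal.span {y}) : (M : ZBar) ∣ ψ I - ψ J := by
  have h1 : ψ I * typB t x = ψ J * typB t y := by
    rw [← typ x (inRay_dvd hM hx), ← typ y (inRay_dvd hM hy), ← map_mul, ← map_mul, h]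
  have h2 : ψ I - ψ J = ψ J * (typB t y - 1) - ψ I * (typB t x - 1) := by
    linear_combination h1
  rw [h2]
  exact dvd_sub (Dvd.dvd.mul_left (typB_cong t hy.2.1) _) (Dvd.dvd.mul_left (typB_cong t hx.2.1) _)

end

section
variable {K E : Type} [Field K] [NumberField K] [Field E] [NumberField E]

/-- the characteristic polynomials of the Frobenius elements of `L` -/
theorem frob_cp {j : E →+* QBar} {N n : ℕ} {P : HeightOneSpectrum (𝓞 K) → (𝓞 E)[X]}
    {U : Subgroup (GK K)} {L : Type} [Field L] [NumberField L] [Algebra K L] {ι : GK L →* GK K}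
    {e : ℕ} {t : Fin n → (L →+* QBar) → ℕ} {ψ : Fin n → (Ideal (𝓞 L) →*₀ ZBar)}
    (H : PotHecke j N n P U L ι e t ψ) {F : Type} [Field F] [IsAlgClosed F] (r : ZBar →+* F)
    (ρ : GK K →* GL (Fin n) F) {v : HeightOneSpectrum (𝓞 K)} (hv : (N : 𝓞 K) ∉ v.asIdeal)
    (hτ : ∀ τ, IsInert v τ → ρ τ = 1)
    (hσ : ∀ σ, IsFrob v σ → (ρ σ : Matrix (Fin n) (Fin n) F).charpoly = (P v).map (r.comp (jz j)))
    {w : HeightOneSpectrum (𝓞 L)} (hw : Above w v) {s : GK L} (hs : IsFrob w s) :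
    (ρ (ι s) : Matrix (Fin n) (Fin n) F).charpoly = ∏ i, (X - Polynomial.C (r (ψ i w.asIdeal))) := by
  obtain ⟨f, hf, hfr⟩ := H.fld.frob v w hw
  obtain ⟨σ, τ, hσ', hτ', hστ⟩ := hfr s hs
  obtain ⟨α, hα⟩ := exists_alpha j (H.monic v hv).1 (H.monic v hv).2
  have h1 := H.eq v w f α hv hw hf hα
  have h2 : (ρ σ : Matrix (Fin n) (Fin n) F).charpoly = ∏ i, (X - Polynomial.C (r (α i))) := by
    rw [hσ σ hσ', ← Polynomial.map_map, hα, Polynomial.map_prod]
    refine Finset.prod_congr rfl fun i _ => ?_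
    rw [Polynomial.map_sub, map_X, Polynomial.map_C]
  have h3 := charpoly_pow _ _ h2 f
  have h4 : (ρ (ι s) : Matrix (Fin n) (Fin n) F) = (ρ σ : Matrix (Fin n) (Fin n) F) ^ f := by
    rw [hστ, map_mul, map_pow, hτ τ hτ', mul_one]
    rfl
  rw [h4, h3]
  have h5 := congrArg (Polynomial.map r) h1
  rw [Polynomial.map_prod, Polynomial.map_prod] at h5
  have h6 : ∀ i : Fin n, (X - Polynomial.C (α i ^ f)).map r = X - Polynomial.C (r (α i) ^ f) := by
    intro i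
    rw [Polynomial.map_sub, map_X, Polynomial.map_C, map_pow r (α i) f]
  have h7 : ∀ i : Fin n, (X - Polynomial.C (ψ i w.asIdeal)).map r =
      X - Polynomial.C (r (ψ i w.asIdeal)) := by
    intro i
    rw [Polynomial.map_sub, map_X, Polynomial.map_C]
  rw [← Finset.prod_congr rfl fun i _ => h6 i, h5, Finset.prod_congr rfl fun i _ => h7 i]

end

end Pool.Agent.H139.ZO
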