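import Pool.Agent.H139.ZO.Com

set_option autoImplicit false
set_option linter.unusedSectionVars false

/-!
# Project ZO (helper500), PART 2: residual representations are unipotent on the commutator subgroup
-/

namespace Pool.Agent.H139.ZO.UNI

open NumberField IsDedekindDomain Filter Topology Polynomial
open Pool.Agent.W401.Cheb (GK IsFrob IsInert dens)
open Pool.Agent.H500.HC (InRay QBar ZBar jz jz_inj)
open Pool.Agent.H500.R2 (UnrOut)
open Pool.Agent.H500.SV (Above Fld)
open Pool.Agent.H500.TH (typB)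
open Pool.Agent.H500.ZO (PotHecke S_ART S_UNI)
open Pool.Agent.H894.TH.TFin (exists_below above_unique above_nat)

theorem main : S_ART → S_UNI := by
  intro hART K E _ _ _ _ j N n P U L _ _ _ ι e t ψ hN H lam k _ φ ρ hφ hop hfr hun c hc
  classical
  set q : ℕ := Ideal.absNorm lam.asIdeal with hqdef
  have hN0 : 0 < N := by omega
  have hq : 0 < q := by
    refine Nat.pos_of_ne_zero ?_
    rw [hqdef, Ne, Ideal.absNorm_eq_zero_iff]
    exact lam.ne_bot
  obtain ⟨V, B, hVo, hVc, hB, hart⟩ := hART L (N ^ e * q) (by positivity)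
  set kb := AlgebraicClosure k with hkb
  set a : k →+* kb := algebraMap k kb with ha
  have hainj : Function.Injective a := a.injective
  obtain ⟨r, hr⟩ := Pool.Agent.Y800.extend j (a.comp φ)
  have hr' : r.comp (jz j) = a.comp φ := RingHom.ext hr
  set ρb : GK K →* GL (Fin n) kb := (Matrix.GeneralLinearGroup.map a).comp ρ with hρb
  have hcoe : ∀ g, (ρb g : Matrix (Fin n) (Fin n) kb) = (ρ g : Matrix (Fin n) (Fin n) k).map a :=
    fun g => rfl
  have hq0 : r ((q : ℕ) : ZBar) = 0 := by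
    have h1 : φ ((q : ℕ) : 𝓞 E) = 0 := by
      rw [← RingHom.mem_ker, hφ]
      exact Ideal.absNorm_mem lam.asIdeal
    rw [map_natCast] at h1 ⊢
    rw [← map_natCast a, h1, map_zero]
  set W : Subgroup (GK L) := ρ.ker.comap ι with hW
  have hWo : IsOpen (W : Set (GK L)) := H.fld.comap_open _ hop
  have hWn : W.Normal := inferInstance
  have hVn : V.Normal := normal_of_comm V hVc
  have hWVn : (W ⊓ V).Normal := inferInstance
  have hWVo : IsOpen ((W ⊓ V : Subgroup (GK L)) : Set (GK L)) := hWo.inter hVo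
  have hNq : 0 < N * q := Nat.mul_pos hN0 hq
  obtain ⟨w, s, hwB, hwN, hs, hsc⟩ := frob_ex (W ⊓ V) hWVn hWVo c hB hNq
  obtain ⟨w', s', hwB', hwN', hs', hsc'⟩ := frob_ex (W ⊓ V) hWVn hWVo 1 hB hNq
  have hsV : s ∈ V := by
    have h1 := V.mul_mem (hVc hc) hsc.2
    rwa [mul_inv_cancel_left] at h1
  have hsV' : s' ∈ V := by
    have h1 := hsc'.2
    rwa [inv_one, one_mul] at h1
  have hss : s⁻¹ * s' ∈ V := V.mul_mem (V.inv_mem hsV) hsV'
  obtain ⟨x, y, hx, hy, hxy⟩ := hart w w' hwB hwB' s s' hs hs' hss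
  have hcong : ∀ i, r (ψ i w.asIdeal) = r (ψ i w'.asIdeal) := by
    intro i
    obtain ⟨z, hz⟩ := hecke_cong (ψ i) (t i) (H.typ i) (Dvd.intro _ rfl) hx hy hxy
    rw [← sub_eq_zero, ← map_sub, hz, map_mul, Nat.cast_mul, map_mul, hq0, mul_zero, zero_mul]
  -- the characteristic polynomials
  have key : ∀ (w : HeightOneSpectrum (𝓞 L)) (s : GK L), ((N * q : ℕ) : 𝓞 L) ∉ w.asIdeal →
      IsFrob w s → (ρb (ι s) : Matrix (Fin n) (Fin n) kb).charpoly =
        ∏ i, (X - Polynomial.C (r (ψ i w.asIdeal))) := by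
    intro w s hw hs
    obtain ⟨v, hv⟩ := exists_below (K := K) w
    have h1 : ((N * q : ℕ) : 𝓞 K) ∉ v.asIdeal := fun h => hw ((above_nat hv _).1 h)
    have h2 : (N : 𝓞 K) ∉ v.asIdeal := fun h => h1 (by
      rw [Nat.cast_mul]; exact v.asIdeal.mul_mem_right _ h)
    have h3 : ((q : ℕ) : 𝓞 K) ∉ v.asIdeal := fun h => h1 (by
      rw [Nat.cast_mul]; exact v.asIdeal.mul_mem_left _ h)
    refine frob_cp H r ρb h2 ?_ ?_ hv hs
    · intro τ hτ
      have h4 : ρ τ = 1 := MonoidHom.mem_ker.1 (hun v h1 τ hτ)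
      rw [hρb, MonoidHom.comp_apply, h4, map_one]
    · intro σ hσ
      rw [hcoe, Matrix.charpoly_map, hfr v h2 h3 σ hσ, Polynomial.map_map, hr']
  have h1 := key w s hwN hs
  have h2 := key w' s' hwN' hs'
  have h3 : ρ (ι s) = ρ (ι c) := by
    have h4 : ι (c⁻¹ * s) ∈ ρ.ker := hsc.1
    rw [MonoidHom.mem_ker, map_mul, map_mul, map_inv, map_inv, inv_mul_eq_one] at h4
    exact h4.symm
  have h5 : ρ (ι s') = 1 := by
    have h4 : ι (1⁻¹ * s') ∈ ρ.ker := hsc'.1
    rwa [inv_one, one_mul, MonoidHom.mem_ker] at h4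
  apply Polynomial.map_injective a hainj
  have h6 : (ρb (ι s) : Matrix (Fin n) (Fin n) kb).charpoly =
      ((ρ (ι c) : Matrix (Fin n) (Fin n) k).charpoly).map a := by
    rw [hcoe, Matrix.charpoly_map, h3]
  rw [← h6, h1, Finset.prod_congr rfl fun i _ => by rw [hcong i], ← h2, hcoe, Matrix.charpoly_map, h5]
  congr 1
  rw [Units.val_one, Matrix.charpoly_one, Fintype.card_fin]

end Pool.Agent.H139.ZO.UNI
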